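import Mathlib
import Pool.Agent.H10.Chordal

set_option autoImplicit false

namespace Pool.Agent.Results.MP_24e13c_co.Full

open Finset

/-- No induced cycle of length at least four. -/
def Chordal {V : Type} (G : SimpleGraph V) : Prop :=
  ∀ n, 4 ≤ n → IsEmpty (SimpleGraph.cycleGraph n ↪g G)

/-- The sum of `f` over the closed neighbourhood of `v`. -/
def nsum {V : Type} [Fintype V] [DecidableEq V] (G : SimpleGraph V) [DecidableRel G.Adj]
    (f : V → ℝ) (v : V) : ℝ := ∑ u ∈ insert v (G.neighborFinset v), f u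

/-- The real domination number, in the extended reals. -/
noncomputable def gammaR {V : Type} [Fintype V] [DecidableEq V] (G : SimpleGraph V)
    [DecidableRel G.Adj] : EReal :=
  sInf {x : EReal | ∃ f : V → ℝ, (∀ v, 1 ≤ nsum G f v) ∧ x = ((∑ v, f v : ℝ) : EReal)}

/-- Nonnegative efficient real dominating function. -/
def IsNERD {V : Type} [Fintype V] [DecidableEq V] (G : SimpleGraph V) [DecidableRel G.Adj]
    (f : V → ℝ) : Prop := (∀ v, 0 ≤ f v) ∧ ∀ v, nsum G f v = 1

/-- The domination number. -/
noncomputable def gamma {V : Type} (G : SimpleGraph V) : ℕ :=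
  sInf {m | ∃ D : Finset V, D.card = m ∧ ∀ v, v ∈ D ∨ ∃ u ∈ D, G.Adj v u}

variable {V : Type} [Fintype V] [DecidableEq V] (G : SimpleGraph V) [DecidableRel G.Adj]

def ind (w z : V) : ℝ := if z = w ∨ G.Adj w z then 1 else 0

theorem ind_symm (w z : V) : ind G w z = ind G z w := by
  unfold ind
  have : (z = w ∨ G.Adj w z) ↔ (w = z ∨ G.Adj z w) := by rw [eq_comm, G.adj_comm]
  simp only [this]

theorem ind_nonneg (w z : V) : 0 ≤ ind G w z := by
  unfold ind; split_ifs <;> norm_num

theorem nsum_eq (f : V → ℝ) (w : V) : nsum G f w = ∑ z, ind G w z * f z := by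
  unfold nsum ind
  have : insert w (G.neighborFinset w) = univ.filter (fun z => z = w ∨ G.Adj w z) := by
    ext z; simp
  rw [this, sum_filter]
  refine sum_congr rfl fun z _ => ?_
  split_ifs <;> simp

theorem core (hG : Chordal G) : ∀ (n : ℕ) (U : Finset V) (f : V → ℝ), U.card = n →
    (∀ v, 0 ≤ f v) → (∀ v, 0 < f v → v ∈ U) → (∀ w ∈ U, 1 ≤ nsum G f w) →
    (∀ w, 0 < f w → nsum G f w ≤ 1) →
    ∃ D : Finset V, (∀ d ∈ D, 0 < f d) ∧ (∀ w ∈ U, ∃ d ∈ D, d = w ∨ G.Adj w d) ∧
      (D.card : ℝ) ≤ ∑ v, f v := by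
  intro n
  induction n using Nat.strong_induction_on with
  | _ n ih =>
  intro U f hU h0 hsupp h1 h2
  rcases U.eq_empty_or_nonempty with rfl | hne
  · exact ⟨∅, by simp, by simp, by simpa using sum_nonneg fun v _ => h0 v⟩
  obtain ⟨v, hv, hs⟩ := Pool.Agent.H10.Chordal.exists_simp G hG U hne
  by_cases hA : ∃ u, G.Adj v u ∧ 0 < f u
  · obtain ⟨u, hvu, hu⟩ := hA
    have huU := hsupp u hu
    have hmono : ∀ z ∈ U, ind G v z ≤ ind G u z := by
      intro z hz
      unfold ind
      by_cases h : z = v ∨ G.Adj v z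
      · have : z = u ∨ G.Adj u z := by
          rcases h with h | h
          · exact Or.inr (h ▸ hvu.symm)
          · by_cases h' : z = u
            · exact Or.inl h'
            · exact Or.inr (hs u huU z hz hvu h (Ne.symm h'))
        simp [h, this]
      · simp only [h, if_false]; split_ifs <;> norm_num
    have hterm : ∀ z, 0 ≤ (ind G u z - ind G v z) * f z := by
      intro z
      rcases (h0 z).lt_or_eq with h | h
      · exact mul_nonneg (sub_nonneg.2 (hmono z (hsupp z h))) h.le
      · rw [← h, mul_zero]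
    have hsum : ∑ z, (ind G u z - ind G v z) * f z = 0 := by
      refine le_antisymm ?_ (sum_nonneg fun z _ => hterm z)
      have a1 := h1 v hv
      have a2 := h2 u hu
      rw [nsum_eq] at a1 a2
      simp only [sub_mul, sum_sub_distrib]
      linarith
    have heq : ∀ z, 0 < f z → ind G u z = ind G v z := by
      intro z hz
      have := (sum_eq_zero_iff_of_nonneg fun z _ => hterm z).1 hsum z (mem_univ z)
      rcases mul_eq_zero.1 this with h | h
      · linarith
      · linarith
    let g : V → ℝ := fun z => f z + f v * ((if z = u then 1 else 0) - (if z = v then 1 else 0))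
    have hgv : g v = 0 := by simp [g, hvu.ne]
    have hgu : g u = f u + f v := by simp [g, hvu.ne.symm]
    have hgo : ∀ z, z ≠ u → z ≠ v → g z = f z := by
      intro z a b; simp [g, a, b]
    have hgpos : ∀ z, 0 < g z → 0 < f z ∧ z ≠ v := by
      intro z hz
      by_cases a : z = v
      · rw [a, hgv] at hz; exact absurd hz (lt_irrefl _)
      · by_cases b : z = u
        · exact ⟨b ▸ hu, a⟩
        · exact ⟨hgo z b a ▸ hz, a⟩
    have hgn : ∀ w, nsum G g w = nsum G f w + f v * (ind G u w - ind G v w) := by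
      intro w
      rw [nsum_eq, nsum_eq, ind_symm G u w, ind_symm G v w]
      simp only [g, mul_add, mul_sub, sum_add_distrib, sum_sub_distrib, mul_ite, mul_one, mul_zero,
        sum_ite_eq', mem_univ, if_true]
      ring
    have hgs : ∑ z, g z = ∑ z, f z := by
      simp only [g, mul_sub, sum_add_distrib, sum_sub_distrib, mul_ite, mul_one, mul_zero,
        sum_ite_eq', mem_univ, if_true]
      ring
    obtain ⟨D, hD1, hD2, hD3⟩ := ih _ (hU ▸ card_erase_lt_of_mem hv) (U.erase v) g rfl
      (by
        intro z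
        by_cases a : z = v
        · rw [a, hgv]
        · by_cases b : z = u
          · rw [b, hgu]; exact add_nonneg (h0 u) (h0 v)
          · rw [hgo z b a]; exact h0 z)
      (fun z hz => mem_erase.2 ⟨(hgpos z hz).2, hsupp z (hgpos z hz).1⟩)
      (by
        intro w hw
        have hw' := mem_of_mem_erase hw
        rw [hgn]
        have := mul_nonneg (h0 v) (sub_nonneg.2 (hmono w hw'))
        linarith [h1 w hw'])
      (by
        intro w hw
        rw [hgn, heq w (hgpos w hw).1, sub_self, mul_zero, add_zero]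
        exact h2 w (hgpos w hw).1)
    refine ⟨D, fun d hd => (hgpos d (hD1 d hd)).1, ?_, hgs ▸ hD3⟩
    intro w hw
    by_cases a : w = v
    · obtain ⟨d, hd, hdu⟩ := hD2 u (mem_erase.2 ⟨hvu.ne.symm, huU⟩)
      refine ⟨d, hd, ?_⟩
      have := heq d (hgpos d (hD1 d hd)).1
      unfold ind at this
      rw [if_pos hdu] at this
      rw [a]
      by_contra h
      rw [if_neg h] at this
      exact one_ne_zero this
    · exact hD2 w (mem_erase.2 ⟨a, hw⟩)
  · have hz : ∀ u, G.Adj v u → f u = 0 := by
      intro u hu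
      rcases (h0 u).lt_or_eq with h | h
      · exact absurd ⟨u, hu, h⟩ hA
      · exact h.symm
    have hv1 : 1 ≤ f v := by
      have := h1 v hv
      unfold nsum at this
      rw [sum_insert (by simp), sum_eq_zero (fun u hu => hz u (by simpa using hu))] at this
      linarith
    let g : V → ℝ := fun z => f z - f v * (if z = v then 1 else 0)
    have hgv : g v = 0 := by simp [g]
    have hgo : ∀ z, z ≠ v → g z = f z := by
      intro z b; simp [g, b]
    have hgpos : ∀ z, 0 < g z → 0 < f z ∧ z ≠ v := by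
      intro z hz
      by_cases a : z = v
      · rw [a, hgv] at hz; exact absurd hz (lt_irrefl _)
      · exact ⟨hgo z a ▸ hz, a⟩
    have hgn : ∀ w, nsum G g w = nsum G f w - f v * ind G v w := by
      intro w
      rw [nsum_eq, nsum_eq, ind_symm G v w]
      simp only [g, mul_sub, sum_sub_distrib, mul_ite, mul_one, mul_zero,
        sum_ite_eq', mem_univ, if_true]
      ring
    have hgs : ∑ z, g z = ∑ z, f z - f v := by
      simp only [g, sum_sub_distrib, mul_ite, mul_one, mul_zero, sum_ite_eq', mem_univ, if_true]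
    have hlt : (U.filter (fun z => ¬ (z = v ∨ G.Adj v z))).card < n := by
      rw [← hU]
      exact card_lt_card ⟨filter_subset _ _, fun h => (mem_filter.1 (h hv)).2 (Or.inl rfl)⟩
    obtain ⟨D, hD1, hD2, hD3⟩ := ih _ hlt _ g rfl
      (by
        intro z
        by_cases a : z = v
        · rw [a, hgv]
        · rw [hgo z a]; exact h0 z)
      (by
        intro z h
        obtain ⟨a, b⟩ := hgpos z h
        refine mem_filter.2 ⟨hsupp z a, ?_⟩
        rintro (h | h)
        · exact b h
        · rw [hz z h] at a; exact lt_irrefl _ a)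
      (by
        intro w hw
        obtain ⟨a, b⟩ := mem_filter.1 hw
        rw [hgn]
        unfold ind
        rw [if_neg b, mul_zero, sub_zero]
        exact h1 w a)
      (by
        intro w hw
        rw [hgn]
        have := mul_nonneg (h0 v) (ind_nonneg G v w)
        linarith [h2 w (hgpos w hw).1])
    refine ⟨insert v D, ?_, ?_, ?_⟩
    · intro d hd
      rcases mem_insert.1 hd with h | h
      · rw [h]; linarith
      · exact (hgpos d (hD1 d h)).1
    · intro w hw
      by_cases b : w = v ∨ G.Adj v w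
      · exact ⟨v, mem_insert_self _ _, b.elim (fun h => Or.inl h.symm) (fun h => Or.inr h.symm)⟩
      · obtain ⟨d, hd, h⟩ := hD2 w (mem_filter.2 ⟨hw, b⟩)
        exact ⟨d, mem_insert_of_mem hd, h⟩
    · have : ((insert v D).card : ℝ) ≤ D.card + 1 := by exact_mod_cast card_insert_le v D
      linarith

theorem gammaR_le : gammaR G ≤ ((gamma G : ℝ) : EReal) := by
  obtain ⟨D, hD, hdom⟩ := Nat.sInf_mem (s := {m | ∃ D : Finset V, D.card = m ∧
    ∀ v, v ∈ D ∨ ∃ u ∈ D, G.Adj v u}) ⟨_, univ, rfl, fun v => Or.inl (mem_univ v)⟩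
  refine sInf_le ⟨fun v => if v ∈ D then 1 else 0, ?_, ?_⟩
  · intro v
    obtain ⟨d, hd, hdv⟩ : ∃ d ∈ D, d ∈ insert v (G.neighborFinset v) := by
      rcases hdom v with h | ⟨u, hu, h⟩
      · exact ⟨v, h, mem_insert_self _ _⟩
      · exact ⟨u, hu, by simp [h]⟩
    have := single_le_sum (f := fun v => if v ∈ D then (1 : ℝ) else 0)
      (fun z _ => by split_ifs <;> norm_num) hdv
    simpa [hd, nsum] using this
  · have : gamma G = D.card := hD.symm
    rw [this]
    simp

theorem dual (f g : V → ℝ) : ∑ v, g v * nsum G f v = ∑ v, f v * nsum G g v := by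
  simp only [nsum_eq, mul_sum]
  rw [sum_comm]
  refine sum_congr rfl fun a _ => sum_congr rfl fun b _ => ?_
  rw [ind_symm G a b]; ring

theorem le_gammaR (f : V → ℝ) (hf : IsNERD G f) : ((∑ v, f v : ℝ) : EReal) ≤ gammaR G := by
  refine le_sInf ?_
  rintro x ⟨g, hg, rfl⟩
  have h := dual G f g
  simp only [hf.2, mul_one] at h
  have : ∑ v, f v ≤ ∑ v, g v := by
    rw [h]
    exact sum_le_sum fun v _ => le_mul_of_one_le_right (hf.1 v) (hg v)
  exact_mod_cast this

theorem farkas (h : ¬ ∃ f, IsNERD G f) : ∃ g : V → ℝ, (∀ v, 0 ≤ nsum G g v) ∧ ∑ v, g v < 0 := by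
  let L : (V → ℝ) →ₗ[ℝ] (V → ℝ) :=
    { toFun := fun f => nsum G f
      map_add' := fun f g => by ext v; simp [nsum, sum_add_distrib]
      map_smul' := fun c f => by ext v; simp [nsum, mul_sum, mul_add] }
  have hL : Continuous L := L.continuous_of_finiteDimensional
  have hcomp : IsCompact (L '' Set.Icc (0 : V → ℝ) 1) := isCompact_Icc.image hL
  have hconv : Convex ℝ (L '' Set.Icc (0 : V → ℝ) 1) := (convex_Icc _ _).linear_image L
  have hnot : (1 : V → ℝ) ∉ L '' Set.Icc (0 : V → ℝ) 1 := by
    rintro ⟨f, hf, h1⟩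
    exact h ⟨f, fun v => hf.1 v, fun v => congrFun h1 v⟩
  obtain ⟨φ, c, h1, h2⟩ := geometric_hahn_banach_point_closed hconv hcomp.isClosed hnot
  let g : V → ℝ := fun v => φ (Pi.single v 1)
  have hφ : ∀ x : V → ℝ, φ x = ∑ v, g v * x v := by
    intro x
    conv_lhs => rw [← univ_sum_single x]
    rw [map_sum]
    refine sum_congr rfl fun v _ => ?_
    have : (Pi.single v (x v) : V → ℝ) = x v • (Pi.single v 1 : V → ℝ) := by
      ext w; by_cases hw : w = v
      · subst hw; simp
      · simp [hw]
    rw [this, map_smul, smul_eq_mul, mul_comm]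
  let f : V → ℝ := fun v => if nsum G g v < 0 then 1 else 0
  have hf : f ∈ Set.Icc (0 : V → ℝ) 1 := by
    constructor <;> intro v <;> simp only [f, Pi.zero_apply, Pi.one_apply] <;>
      split_ifs <;> norm_num
  have h3 := h2 _ ⟨f, hf, rfl⟩
  rw [hφ] at h1 h3
  have h4 : ∑ v, g v * (L f) v = ∑ v, f v * nsum G g v := dual G f g
  rw [h4] at h3
  simp only [Pi.one_apply, mul_one] at h1
  have hneg : ∀ v, f v * nsum G g v ≤ 0 ∧ f v * nsum G g v ≤ nsum G g v := by
    intro v
    simp only [f]
    split_ifs with hv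
    · constructor <;> linarith
    · constructor <;> linarith
  refine ⟨fun v => g v - f v * nsum G g v, ?_, ?_⟩
  · intro v
    have e : nsum G (fun v => g v - f v * nsum G g v) v
        = nsum G g v + ∑ u ∈ insert v (G.neighborFinset v), - (f u * nsum G g u) := by
      simp only [nsum, sum_sub_distrib, sum_neg_distrib]
      ring
    have := single_le_sum (f := fun u => - (f u * nsum G g u)) (s := insert v (G.neighborFinset v))
      (fun z _ => neg_nonneg.2 (hneg z).1) (mem_insert_self _ _)
    rw [e]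
    linarith [(hneg v).2]
  · rw [sum_sub_distrib]; linarith

theorem result : ∀ (V : Type) [Fintype V] [DecidableEq V] (G : SimpleGraph V)
    [DecidableRel G.Adj], Chordal G →
      (gammaR G = ((gamma G : ℝ) : EReal) ↔ ∃ f : V → ℝ, IsNERD G f) := by
  intro V _ _ G _ hG
  constructor
  · intro h
    by_contra hn
    obtain ⟨g, hg1, hg2⟩ := farkas G hn
    set t : ℝ := (Fintype.card V + 1) / (- ∑ v, g v) with ht
    have htpos : 0 ≤ t := div_nonneg (by positivity) (by linarith)
    have h1 : gammaR G ≤ ((∑ v, (1 + t * g v) : ℝ) : EReal) := by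
      refine sInf_le ⟨fun v => 1 + t * g v, ?_, rfl⟩
      intro v
      have e : nsum G (fun v => 1 + t * g v) v
          = ∑ u ∈ insert v (G.neighborFinset v), (1 : ℝ) + t * nsum G g v := by
        simp only [nsum, sum_add_distrib, mul_sum]
      have := single_le_sum (f := fun _ => (1 : ℝ)) (s := insert v (G.neighborFinset v))
        (fun z _ => zero_le_one) (mem_insert_self _ _)
      rw [e]
      linarith [mul_nonneg htpos (hg1 v)]
    rw [h] at h1
    have h2 : (gamma G : ℝ) ≤ ∑ v, (1 + t * g v) := by exact_mod_cast h1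
    rw [sum_add_distrib, ← mul_sum] at h2
    have h3 : t * ∑ v, g v = - (Fintype.card V + 1) := by
      rw [ht]
      have : ∑ v, g v ≠ 0 := hg2.ne
      field_simp
    simp only [sum_const, card_univ, nsmul_eq_mul, mul_one] at h2
    have : (0 : ℝ) ≤ gamma G := Nat.cast_nonneg _
    linarith
  · rintro ⟨f, hf⟩
    refine le_antisymm (gammaR_le G) (le_trans ?_ (le_gammaR G f hf))
    obtain ⟨D, _, hD2, hD3⟩ := core G hG _ univ f rfl hf.1 (fun v _ => mem_univ v)
      (fun w _ => (hf.2 w).ge) (fun w _ => (hf.2 w).le)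
    have : gamma G ≤ D.card := by
      refine Nat.sInf_le ⟨D, rfl, fun v => ?_⟩
      obtain ⟨d, hd, h | h⟩ := hD2 v (mem_univ v)
      · exact Or.inl (h ▸ hd)
      · exact Or.inr ⟨d, hd, h⟩
    have h2 : (gamma G : ℝ) ≤ ∑ v, f v := le_trans (by exact_mod_cast this) hD3
    exact_mod_cast h2

end Pool.Agent.Results.MP_24e13c_co.Full
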